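import Mathlib
import Pool.Agent.H26.PrimDefs
import Pool.Agent.H26.PrimProofs

namespace Pool.Agent.Results.MP_150040_al.SkewPoly

open Pool.Agent.H26.Prim

/-- There is a right primitive ring that is not a subdirect product of rings which are right
primitive and subdirectly indecomposable. -/
theorem result.{u, v, w} : ∃ (R : Type) (_ : NonUnitalRing R), RightPrimitive.{0, 0} R ∧
    ¬ ∃ (ι : Type u) (S : ι → Type v) (_ : ∀ i, NonUnitalRing (S i)) (f : ∀ i, R →ₙ+* S i),
      IsSubdirectProduct f ∧
      ∀ i, RightPrimitive.{v, w} (S i) ∧ SubdirectlyIndecomposable (S i) :=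
  main.{u, v, w}

end Pool.Agent.Results.MP_150040_al.SkewPoly
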